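import Pool.Agent.H369R3.UT.Defs

/-! Task I1 of project H369-UT (helper444). -/

set_option autoImplicit false

open Set Filter Topology Metric MeasureTheory

namespace Pool.Agent.H444R3.UT

open Pool.Agent.H369R3.UT

theorem taskI1 : TaskI1 := by
  intro hH n f a R M C δ hf hC hM hδ hδR hMC y hy
  have hyR : y ∈ closedBall a R := by
    rw [mem_closedBall]
    rw [mem_ball] at hy
    linarith
  have hcont : ContinuousOn (fun z : Cn n => f z - M / 2 * ‖z - y‖ ^ 2) (closedBall a R) := by
    have h1 : Continuous f := hf.continuous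
    exact (h1.sub (continuous_const.mul ((continuous_id.sub continuous_const).norm.pow 2))).continuousOn
  obtain ⟨x, hx, hmax⟩ := (isCompact_closedBall a R).exists_isMaxOn ⟨y, hyR⟩ hcont
  have hmax' : ∀ z ∈ closedBall a R, f z - M / 2 * ‖z - y‖ ^ 2 ≤ f x - M / 2 * ‖x - y‖ ^ 2 :=
    fun z hz => hmax hz
  have h1 := hmax' y hyR
  rw [sub_self, norm_zero] at h1
  have h2 := abs_le.mp (hC x hx)
  have h3 := abs_le.mp (hC y hyR)
  have h4 : M * ‖x - y‖ ^ 2 < M * δ ^ 2 := by nlinarith
  have h5 : ‖x - y‖ ^ 2 < δ ^ 2 := lt_of_mul_lt_mul_left h4 hM.le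
  have h6 : ‖x - y‖ < δ := lt_of_pow_lt_pow_left₀ 2 hδ.le h5
  have hxb : x ∈ ball a R := by
    rw [mem_ball] at hy ⊢
    calc dist x a ≤ dist x y + dist y a := dist_triangle _ _ _
      _ < δ + (R - δ) := by
          rw [dist_eq_norm x y]
          exact add_lt_add h6 hy
      _ = R := by ring
  have hloc : IsLocalMax (fun z => f z - M / 2 * ‖z - y‖ ^ 2) x := by
    filter_upwards [isOpen_ball.mem_nhds hxb] with z hz
    exact hmax' z (ball_subset_closedBall hz)
  obtain ⟨hg, _⟩ := hH n f x y M hf hloc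
  refine ⟨x, ⟨⟨hx, y, hyR, hmax'⟩, hxb⟩, ?_⟩
  have hgrad : grad f x = M • (x - y) := by
    refine ext_inner_right ℝ fun v => ?_
    unfold grad
    rw [InnerProductSpace.toDual_symm_apply, hg v, real_inner_smul_left]
  unfold vert
  rw [hgrad, smul_smul, inv_mul_cancel₀ hM.ne', one_smul]
  abel

end Pool.Agent.H444R3.UT
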